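import Mathlib

/-!
Definitions for the Gaussian lattice covering bound: closed convex sets with nonempty interior,
lattices, covering radius, last successive minimum and the functions `g_alpha`, `g_alpha^ns`.
All extremal quantities take values in `[0, ∞]`.
-/

namespace Pool.Agent.MP_2cc29a_gt

open MeasureTheory ProbabilityTheory
open scoped Pointwise ENNReal

/-- `V` is closed, convex and has nonempty interior. -/
def IsConvexSet {n : ℕ} (V : Set (EuclideanSpace ℝ (Fin n))) : Prop :=
  IsClosed V ∧ Convex ℝ V ∧ (interior V).Nonempty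

/-- `L` is a discrete subgroup that spans the whole space. -/
def IsLattice {n : ℕ} (L : AddSubgroup (EuclideanSpace ℝ (Fin n))) : Prop :=
  DiscreteTopology L ∧ Submodule.span ℝ (L : Set (EuclideanSpace ℝ (Fin n))) = ⊤

/-- The covering radius: the infimum of the `c > 0` with `L + c V = ℝⁿ`. -/
noncomputable def covRadius {n : ℕ} (L : AddSubgroup (EuclideanSpace ℝ (Fin n)))
    (V : Set (EuclideanSpace ℝ (Fin n))) : ℝ≥0∞ :=
  ⨅ (c : ℝ) (_ : 0 < c ∧ (L : Set (EuclideanSpace ℝ (Fin n))) + c • V = Set.univ),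
    ENNReal.ofReal c

/-- The last successive minimum: the infimum of the `c > 0` such that `L` has `n` linearly
independent vectors of Euclidean norm at most `c`. -/
noncomputable def lastMin {n : ℕ} (L : AddSubgroup (EuclideanSpace ℝ (Fin n))) : ℝ≥0∞ :=
  ⨅ (c : ℝ) (_ : 0 < c ∧ ∃ b : Fin n → EuclideanSpace ℝ (Fin n),
    LinearIndependent ℝ b ∧ ∀ i, b i ∈ L ∧ ‖b i‖ ≤ c), ENNReal.ofReal c

/-- The supremum over all lattices of covering radius over last successive minimum. -/
noncomputable def alpha {n : ℕ} (V : Set (EuclideanSpace ℝ (Fin n))) : ℝ≥0∞ :=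
  ⨆ (L : AddSubgroup (EuclideanSpace ℝ (Fin n))) (_ : IsLattice L), covRadius L V / lastMin L

/-- The supremum of `alpha` over centrally symmetric convex sets of Gaussian measure `p`. -/
noncomputable def gSym (n : ℕ) (p : ℝ) : ℝ≥0∞ :=
  ⨆ (V : Set (EuclideanSpace ℝ (Fin n))) (_ : IsConvexSet V ∧ V = -V ∧
    stdGaussian (EuclideanSpace ℝ (Fin n)) V = ENNReal.ofReal p), alpha V

/-- The supremum of `alpha` over all convex sets of Gaussian measure `p`. -/
noncomputable def gAll (n : ℕ) (p : ℝ) : ℝ≥0∞ :=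
  ⨆ (V : Set (EuclideanSpace ℝ (Fin n))) (_ : IsConvexSet V ∧
    stdGaussian (EuclideanSpace ℝ (Fin n)) V = ENNReal.ofReal p), alpha V

end Pool.Agent.MP_2cc29a_gt
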