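import Mathlib

/-!
Steiner symmetrisation of open convex sets in coordinates and its effect on the product
Gaussian measure.
-/

namespace Pool.Agent.MP_2cc29a_gt

open MeasureTheory ProbabilityTheory Set Function
open scoped ENNReal

lemma pdf_anti {x y : ℝ} (h : |x| ≤ |y|) : gaussianPDF 0 1 y ≤ gaussianPDF 0 1 x := by
  unfold gaussianPDF gaussianPDFReal
  apply ENNReal.ofReal_le_ofReal
  have h2 : x ^ 2 ≤ y ^ 2 := sq_le_sq.mpr h
  apply mul_le_mul_of_nonneg_left _ (by positivity)
  apply Real.exp_le_exp.mpr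
  simp only [sub_zero, NNReal.coe_one, mul_one]
  linarith

/-- A centred interval has the largest Gaussian measure among intervals of its length. -/
lemma gauss_Icc_le (a b : ℝ) :
    gaussianReal 0 1 (Icc a b) ≤ gaussianReal 0 1 (Icc (-((b - a) / 2)) ((b - a) / 2)) := by
  set h := (b - a) / 2 with hh
  set A := Icc a b with hA
  set C := Icc (-h) h with hC
  have mA : MeasurableSet A := measurableSet_Icc
  have mC : MeasurableSet C := measurableSet_Icc
  have hv : (1 : NNReal) ≠ 0 := one_ne_zero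
  have hvol : volume A = volume C := by
    simp only [hA, hC, Real.volume_Icc]
    congr 1
    rw [hh]; ring
  have hfin : volume (A ∩ C) ≠ ∞ :=
    ne_top_of_le_ne_top (by simp [hA]) (measure_mono inter_subset_left)
  have hd : volume (A \ C) = volume (C \ A) := by
    have e1 := measure_inter_add_sdiff (μ := volume) A mC
    have e2 := measure_inter_add_sdiff (μ := volume) C mA
    rw [inter_comm] at e2
    rw [hvol, ← e2] at e1
    exact (ENNReal.add_right_inj hfin).mp e1
  rw [← measure_inter_add_sdiff (μ := gaussianReal 0 1) A mC,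
    ← measure_inter_add_sdiff (μ := gaussianReal 0 1) C mA, inter_comm C A]
  refine add_le_add le_rfl ?_
  rw [gaussianReal_apply _ hv, gaussianReal_apply _ hv]
  calc ∫⁻ x in A \ C, gaussianPDF 0 1 x ≤ ∫⁻ _x in A \ C, gaussianPDF 0 1 h := by
        apply setLIntegral_mono' (mA.diff mC)
        intro x hx
        apply pdf_anti
        have h1 : ¬ (-h ≤ x ∧ x ≤ h) := hx.2
        have h0 : 0 ≤ h := by
          have := hx.1
          rw [hh]; linarith [this.1, this.2]
        rw [abs_of_nonneg h0]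
        by_contra h2
        have := abs_lt.mp (not_le.mp h2)
        exact h1 ⟨this.1.le, this.2.le⟩
    _ = ∫⁻ _x in C \ A, gaussianPDF 0 1 h := by
        rw [setLIntegral_const, setLIntegral_const, hd]
    _ ≤ ∫⁻ x in C \ A, gaussianPDF 0 1 x := by
        apply setLIntegral_mono' (mC.diff mA)
        intro x hx
        apply pdf_anti
        exact (abs_le.mpr hx.1).trans (le_abs_self h)

/-- One-dimensional symmetrisation does not decrease the Gaussian measure. -/
lemma gauss_le_sym {J J' : Set ℝ} (hJ : IsOpen J) (hc : Convex ℝ J)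
    (h : ∀ a ∈ J, ∀ b ∈ J, (a - b) / 2 ∈ J') : gaussianReal 0 1 J ≤ gaussianReal 0 1 J' := by
  apply le_of_forall_lt_imp_le_of_dense
  intro r hr
  obtain ⟨K, hKJ, hK, hrK⟩ := hJ.exists_lt_isCompact hr
  rcases K.eq_empty_or_nonempty with rfl | hne
  · simp at hrK
  obtain ⟨a, ha, ha'⟩ := hK.exists_isLeast hne
  obtain ⟨b, hb, hb'⟩ := hK.exists_isGreatest hne
  have hab : Icc a b ⊆ J := hc.ordConnected.out (hKJ ha) (hKJ hb)
  have hKI : K ⊆ Icc a b := fun x hx => ⟨ha' hx, hb' hx⟩
  refine hrK.le.trans ((measure_mono hKI).trans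
    ((gauss_Icc_le a b).trans (measure_mono ?_)))
  intro t ht
  have h1 := ht.1
  have h2 := ht.2
  have := h ((a + b) / 2 + t) (hab ⟨by linarith, by linarith⟩) ((a + b) / 2 - t)
    (hab ⟨by linarith, by linarith⟩)
  convert this using 1
  ring

variable {n : ℕ}

/-- Steiner symmetrisation in the coordinate `k`. -/
def steiner (k : Fin n) (U : Set (Fin n → ℝ)) : Set (Fin n → ℝ) :=
  {z | ∃ a b, update z k a ∈ U ∧ update z k b ∈ U ∧ z k = (a - b) / 2}

lemma steiner_open (k : Fin n) {U : Set (Fin n → ℝ)} (hU : IsOpen U) : IsOpen (steiner k U) := by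
  have : steiner k U = ⋃ a : ℝ, {z | update z k a ∈ U} ∩ {z | update z k (a - 2 * z k) ∈ U} := by
    ext z
    simp only [steiner, mem_ofPred_eq, mem_iUnion, mem_inter_iff]
    constructor
    · rintro ⟨a, b, h1, h2, h3⟩
      refine ⟨a, h1, ?_⟩
      convert h2 using 2
      rw [h3]; ring
    · rintro ⟨a, h1, h2⟩
      exact ⟨a, _, h1, h2, by ring⟩
  rw [this]
  refine isOpen_iUnion fun a => IsOpen.inter ?_ ?_
  · exact hU.preimage (by fun_prop)
  · exact hU.preimage (by fun_prop)

lemma update_comb (k : Fin n) (z w : Fin n → ℝ) (s t a b : ℝ) :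
    update (s • z + t • w) k (s * a + t * b) = s • update z k a + t • update w k b := by
  ext j
  by_cases hj : j = k
  · subst hj; simp
  · simp [update_of_ne hj]

lemma steiner_convex (k : Fin n) {U : Set (Fin n → ℝ)} (hU : Convex ℝ U) :
    Convex ℝ (steiner k U) := by
  rintro z ⟨a, b, h1, h2, h3⟩ w ⟨a', b', h1', h2', h3'⟩ s t hs ht hst
  refine ⟨s * a + t * a', s * b + t * b', ?_, ?_, ?_⟩
  · rw [update_comb]; exact hU h1 h1' hs ht hst
  · rw [update_comb]; exact hU h2 h2' hs ht hst
  · simp only [Pi.add_apply, Pi.smul_apply, smul_eq_mul, h3, h3']; ring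

lemma fiber_convex (k : Fin n) {U : Set (Fin n → ℝ)} (hU : Convex ℝ U) (z : Fin n → ℝ) :
    Convex ℝ {a : ℝ | update z k a ∈ U} := by
  intro a ha b hb s t hs ht hst
  have := hU ha hb hs ht hst
  rw [← update_comb, ← add_smul, hst, one_smul] at this
  exact this

/-- The product Gaussian measure. -/
noncomputable def gpi (n : ℕ) : Measure (Fin n → ℝ) := Measure.pi fun _ => gaussianReal 0 1

instance : IsProbabilityMeasure (gpi n) := by unfold gpi; infer_instance

lemma steiner_measure (k : Fin n) {U : Set (Fin n → ℝ)} (hU : IsOpen U) (hc : Convex ℝ U) :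
    gpi n U ≤ gpi n (steiner k U) := by
  have mU := hU.measurableSet
  have mS := (steiner_open k hU).measurableSet
  rw [← lintegral_indicator_one mU, ← lintegral_indicator_one mS]
  refine lintegral_le_of_lmarginal_le {k} (measurable_one.indicator mU)
    (measurable_one.indicator mS) ?_
  intro x
  rw [lmarginal_singleton, lmarginal_singleton]
  have key : ∀ {W : Set (Fin n → ℝ)}, IsOpen W →
      ∫⁻ a, W.indicator (1 : (Fin n → ℝ) → ℝ≥0∞) (update x k a) ∂(gaussianReal 0 1) =
        gaussianReal 0 1 {a | update x k a ∈ W} := by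
    intro W hW
    have : IsOpen {a : ℝ | update x k a ∈ W} := hW.preimage (by fun_prop)
    rw [← lintegral_indicator_one this.measurableSet]
    rfl
  change ∫⁻ a, U.indicator 1 (update x k a) ∂(gaussianReal 0 1) ≤
    ∫⁻ a, (steiner k U).indicator 1 (update x k a) ∂(gaussianReal 0 1)
  rw [key hU, key (steiner_open k hU)]
  refine gauss_le_sym (hU.preimage (by fun_prop)) (fiber_convex k hc x) ?_
  intro a ha b hb
  refine ⟨a, b, ?_, ?_, ?_⟩
  · rw [update_idem]; exact ha
  · rw [update_idem]; exact hb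
  · simp

/-- An interval of length at least `|β|` meets every translate of `β ℤ`. -/
lemma exists_int_mem {a b β t r : ℝ} (hβ : β ≠ 0) (hr : |β| ≤ r) (hab : a + r ≤ b) :
    ∃ m : ℤ, t + m * β ∈ Icc a b := by
  have hpos : 0 < |β| := abs_pos.mpr hβ
  obtain ⟨m, hm⟩ : ∃ m : ℤ, t + m * |β| ∈ Icc a b := by
    refine ⟨⌈(a - t) / |β|⌉, ?_, ?_⟩
    · have := Int.le_ceil ((a - t) / |β|)
      rw [div_le_iff₀ hpos] at this
      linarith
    · have := (Int.ceil_lt_add_one ((a - t) / |β|)).le
      have h2 := mul_le_mul_of_nonneg_right this hpos.le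
      rw [add_mul, div_mul_cancel₀ _ hpos.ne'] at h2
      linarith
  rcases abs_choice β with h | h
  · exact ⟨m, by rwa [h] at hm⟩
  · refine ⟨-m, ?_⟩
    rw [h] at hm
    convert hm using 1
    push_cast; ring

/-- Negation of the first `k` coordinates. -/
def negLt (k : ℕ) (z : Fin n → ℝ) : Fin n → ℝ := fun j => if (j : ℕ) < k then -z j else z j

/-- The invariant after `k` symmetrisations. -/
structure Inv (B : Fin n → Fin n → ℝ) (x : Fin n → ℝ) (r : ℝ) (q : ℝ≥0∞) (k : ℕ)
    (U : Set (Fin n → ℝ)) : Prop where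
  op : IsOpen U
  cv : Convex ℝ U
  ms : q ≤ gpi n U
  sy : ∀ z ∈ U, negLt k z ∈ U
  av : ∀ z ∈ U, ∀ m : Fin n → ℤ, (∀ j : Fin n, (j : ℕ) < k → r / 2 ≤ |z j|) →
    ¬ ∀ j : Fin n, k ≤ (j : ℕ) → z j = x j + ∑ i, m i * B i j

lemma inv_step {B : Fin n → Fin n → ℝ} {x : Fin n → ℝ} {r : ℝ} {q : ℝ≥0∞}
    (hB : ∀ i j, i < j → B i j = 0) (hd : ∀ i, B i i ≠ 0) (hr : ∀ i, |B i i| ≤ r)
    (k : Fin n) {U : Set (Fin n → ℝ)} (h : Inv B x r q k U) :
    Inv B x r q (k + 1) (steiner k U) where
  op := steiner_open k h.op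
  cv := steiner_convex k h.cv
  ms := h.ms.trans (steiner_measure k h.op h.cv)
  sy := by
    rintro z ⟨a, b, h1, h2, h3⟩
    have e : ∀ c, update (negLt (k + 1) z) k c = negLt k (update z k c) := by
      intro c
      ext j
      by_cases hj : j = k
      · subst hj; simp [negLt]
      · have : (j : ℕ) ≠ k := fun h' => hj (Fin.ext h')
        have h' : (j : ℕ) < k + 1 ↔ (j : ℕ) < k := by omega
        simp [negLt, update_of_ne hj, h']
    refine ⟨b, a, ?_, ?_, ?_⟩
    · rw [e]; exact h.sy _ h2
    · rw [e]; exact h.sy _ h1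
    · simp only [negLt, Nat.lt_succ_self, if_true, h3]; ring
  av := by
    rintro z ⟨a, b, h1, h2, h3⟩ m hz hm
    have hk := hz k (Nat.lt_succ_self _)
    have hJ := (fiber_convex k h.cv z).ordConnected
    obtain ⟨a', b', ha', hb', hab⟩ : ∃ a' b', update z k a' ∈ U ∧ update z k b' ∈ U ∧
        a' + r ≤ b' := by
      rcases abs_choice (z k) with e | e
      · exact ⟨b, a, h2, h1, by rw [e, h3] at hk; linarith⟩
      · exact ⟨a, b, h1, h2, by rw [e, h3] at hk; linarith⟩
    obtain ⟨m', hm'⟩ := exists_int_mem (t := x k + ∑ i, m i * B i k) (hd k) (hr k) hab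
    have hU : update z k (x k + ∑ i, m i * B i k + m' * B k k) ∈ U := hJ.out ha' hb' hm'
    refine h.av _ hU (m + Pi.single k m') ?_ ?_
    · intro j hj
      have : j ≠ k := fun h' => by rw [h'] at hj; exact lt_irrefl _ hj
      rw [update_of_ne this]
      exact hz j (by omega)
    · intro j hj
      have hs : ∑ i, (((m + Pi.single k m' : Fin n → ℤ) i : ℤ) : ℝ) * B i j =
          ∑ i, m i * B i j + m' * B k j := by
        simp only [Pi.add_apply, Int.cast_add, add_mul, Finset.sum_add_distrib]
        congr 1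
        rw [Finset.sum_eq_single k]
        · simp
        · intro i _ hi; simp [Pi.single_eq_of_ne hi]
        · simp
      rw [hs]
      by_cases hjk : j = k
      · subst hjk; simp [add_assoc]
      · have hlt : k < j := by
          have : (j : ℕ) ≠ k := fun h' => hjk (Fin.ext h')
          exact Fin.lt_def.mpr (by omega)
        rw [update_of_ne hjk, hB k j hlt, mul_zero, add_zero]
        exact hm j (by have := Fin.lt_def.mp hlt; omega)

/-- After `n` symmetrisations: a symmetric open convex set of at least the same measure that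
avoids all points with every coordinate of absolute value at least `r / 2`. -/
theorem exists_sym {B : Fin n → Fin n → ℝ} {x : Fin n → ℝ} {r : ℝ}
    (hB : ∀ i j, i < j → B i j = 0) (hd : ∀ i, B i i ≠ 0) (hr : ∀ i, |B i i| ≤ r)
    {U : Set (Fin n → ℝ)} (ho : IsOpen U) (hc : Convex ℝ U)
    (hav : ∀ m : Fin n → ℤ, (fun j => x j + ∑ i, m i * B i j) ∉ U) :
    ∃ W : Set (Fin n → ℝ), IsOpen W ∧ Convex ℝ W ∧ gpi n U ≤ gpi n W ∧ (∀ z ∈ W, -z ∈ W) ∧
      ∀ z ∈ W, ¬ ∀ j, r / 2 ≤ |z j| := by
  have main : ∀ k : ℕ, k ≤ n → ∃ W, Inv B x r (gpi n U) k W := by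
    intro k
    induction k with
    | zero =>
      intro _
      refine ⟨U, ho, hc, le_rfl, ?_, ?_⟩
      · intro z hz
        have : negLt 0 z = z := by ext j; simp [negLt]
        rwa [this]
      · intro z hz m _ hm
        apply hav m
        have : (fun j => x j + ∑ i, m i * B i j) = z := by
          ext j; exact (hm j (Nat.zero_le _)).symm
        rwa [this]
    | succ k ih =>
      intro hk
      obtain ⟨W, hW⟩ := ih (by omega)
      exact ⟨_, inv_step hB hd hr ⟨k, by omega⟩ hW⟩
  obtain ⟨W, hW⟩ := main n le_rfl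
  refine ⟨W, hW.op, hW.cv, hW.ms, ?_, ?_⟩
  · intro z hz
    have : negLt n z = -z := by ext j; simp [negLt]
    rw [← this]; exact hW.sy z hz
  · intro z hz h
    exact hW.av z hz 0 (fun j _ => h j) fun j hj => absurd j.2 (by omega)

end Pool.Agent.MP_2cc29a_gt
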