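import Pool.Agent.MP_2cc29a_gt.Defs
import Pool.Agent.MP_2cc29a_gt.Steiner

/-!
The symmetric and the general Gaussian lattice covering constants agree.
-/

namespace Pool.Agent.MP_2cc29a_gt

open MeasureTheory ProbabilityTheory Set Function Filter Topology InnerProductSpace
open scoped ENNReal Pointwise

lemma pi_ac {μ ν : Measure ℝ} [SigmaFinite μ] [SigmaFinite ν] (h : μ ≪ ν) (n : ℕ) :
    (Measure.pi fun _ : Fin n => μ) ≪ Measure.pi fun _ : Fin n => ν := by
  induction n with
  | zero =>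
    rw [Measure.pi_of_empty, Measure.pi_of_empty]
  | succ n ih =>
    rw [← (measurePreserving_piFinSuccAbove (fun _ : Fin (n + 1) => μ) 0).symm.map_eq,
      ← (measurePreserving_piFinSuccAbove (fun _ : Fin (n + 1) => ν) 0).symm.map_eq]
    exact (h.prod ih).map (MeasurableEquiv.measurable _)

variable {n : ℕ}

lemma gpi_ac : gpi n ≪ volume :=
  pi_ac (gaussianReal_absolutelyContinuous 0 one_ne_zero) n

lemma gpi_interior {W : Set (Fin n → ℝ)} (hc : Convex ℝ W) : gpi n W ≤ gpi n (interior W) := by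
  have h0 : gpi n (frontier W) = 0 := gpi_ac (hc.addHaar_frontier volume)
  calc gpi n W ≤ gpi n (interior W ∪ frontier W) := by
        apply measure_mono
        rw [← closure_eq_interior_union_frontier]
        exact subset_closure
    _ ≤ gpi n (interior W) + gpi n (frontier W) := measure_union_le _ _
    _ = gpi n (interior W) := by rw [h0, add_zero]

lemma cont_cut [NeZero n] {W : Set (Fin n → ℝ)} (hW : MeasurableSet W) :
    Continuous fun R : ℝ => (gpi n).real (W ∩ Metric.closedBall 0 R) := by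
  have hm : ∀ R : ℝ, MeasurableSet (W ∩ Metric.closedBall 0 R) :=
    fun R => hW.inter measurableSet_closedBall
  have e : (fun R : ℝ => (gpi n).real (W ∩ Metric.closedBall 0 R)) =
      fun R : ℝ => ∫ a, (W ∩ Metric.closedBall 0 R).indicator (1 : (Fin n → ℝ) → ℝ) a ∂gpi n := by
    ext R
    rw [integral_indicator_one (hm R)]
  rw [e, continuous_iff_continuousAt]
  intro R₀
  refine continuousAt_of_dominated (bound := fun _ => 1) ?_ ?_ (integrable_const _) ?_
  · exact Eventually.of_forall fun R => (measurable_one.indicator (hm R)).aestronglyMeasurable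
  · refine Eventually.of_forall fun R => Eventually.of_forall fun a => ?_
    by_cases ha : a ∈ W ∩ Metric.closedBall 0 R <;> simp [ha]
  · have h0 : gpi n (Metric.sphere 0 R₀) = 0 := gpi_ac (Measure.addHaar_sphere volume 0 R₀)
    filter_upwards [compl_mem_ae_iff.mpr h0] with a ha
    have hne : ‖a‖ ≠ R₀ := by simpa using ha
    rcases lt_or_gt_of_ne hne with h | h
    · refine (continuousAt_const (y := W.indicator (1 : (Fin n → ℝ) → ℝ) a)).congr ?_
      filter_upwards [lt_mem_nhds h] with R hR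
      by_cases hw : a ∈ W <;> simp [hw, hR.le]
    · refine (continuousAt_const (y := (0 : ℝ))).congr ?_
      filter_upwards [gt_mem_nhds h] with R hR
      simp [not_le.mpr hR]

/-- Cutting a symmetric closed convex set down to a prescribed measure. -/
lemma exists_exact [NeZero n] {W : Set (Fin n → ℝ)} (hcl : IsClosed W) (hc : Convex ℝ W)
    (hs : ∀ z ∈ W, -z ∈ W) {p : ℝ} (hp : 0 ≤ p) (hle : ENNReal.ofReal p ≤ gpi n W) :
    ∃ W' ⊆ W, IsClosed W' ∧ Convex ℝ W' ∧ (∀ z ∈ W', -z ∈ W') ∧ gpi n W' = ENNReal.ofReal p := by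
  rcases hle.eq_or_lt with h | h
  · exact ⟨W, subset_rfl, hcl, hc, hs, h.symm⟩
  have hmono : Monotone fun k : ℕ => W ∩ Metric.closedBall 0 (k : ℝ) := fun k l hkl =>
    inter_subset_inter_right _ (Metric.closedBall_subset_closedBall (by exact_mod_cast hkl))
  have hU : ⋃ k : ℕ, W ∩ Metric.closedBall 0 (k : ℝ) = W := by
    rw [← inter_iUnion, Metric.iUnion_closedBall_nat, inter_univ]
  rw [← hU, hmono.measure_iUnion, lt_iSup_iff] at h
  obtain ⟨k, hk⟩ := h
  have h0 : (gpi n).real (W ∩ Metric.closedBall 0 (0 : ℝ)) ≤ p := by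
    have : gpi n (W ∩ Metric.closedBall 0 (0 : ℝ)) = 0 := by
      apply gpi_ac
      apply measure_mono_null inter_subset_right
      simp
    simp only [Measure.real, this, ENNReal.toReal_zero, hp]
  have h1 : p ≤ (gpi n).real (W ∩ Metric.closedBall 0 (k : ℝ)) :=
    (ENNReal.ofReal_le_iff_le_toReal (measure_ne_top _ _)).mp hk.le
  obtain ⟨R, hR⟩ := intermediate_value_univ (0 : ℝ) (k : ℝ) (cont_cut hcl.measurableSet) ⟨h0, h1⟩
  refine ⟨W ∩ Metric.closedBall 0 R, inter_subset_left, hcl.inter Metric.isClosed_closedBall,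
    hc.inter (convex_closedBall _ _), ?_, ?_⟩
  · intro z hz
    exact ⟨hs z hz.1, by simpa using hz.2⟩
  · rw [← hR]
    exact (ENNReal.ofReal_toReal (measure_ne_top _ _)).symm

/-- The geometric core: a convex set missing a shifted lattice with short generators gives a
symmetric one of the same measure missing all points with large coordinates. -/
lemma core [NeZero n] {V : Set (EuclideanSpace ℝ (Fin n))} (hcl : IsClosed V) (hc : Convex ℝ V)
    {p : ℝ} (hp : 0 < p) (hV : stdGaussian (EuclideanSpace ℝ (Fin n)) V = ENNReal.ofReal p)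
    {b : Fin n → EuclideanSpace ℝ (Fin n)} (hb : LinearIndependent ℝ b) {r : ℝ}
    (hr : ∀ i, ‖b i‖ ≤ r) (x : EuclideanSpace ℝ (Fin n))
    (hx : ∀ m : Fin n → ℤ, x + ∑ i, (m i : ℝ) • b i ∉ V) :
    ∃ V' : Set (EuclideanSpace ℝ (Fin n)), IsConvexSet V' ∧ V' = -V' ∧
      stdGaussian (EuclideanSpace ℝ (Fin n)) V' = ENNReal.ofReal p ∧
      ∀ z ∈ V', ¬ ∀ j, r / 2 < |z j| := by
  have hdim : Module.finrank ℝ (EuclideanSpace ℝ (Fin n)) = Fintype.card (Fin n) := by simp
  set e := gramSchmidtOrthonormalBasis hdim b with he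
  have hdet : IsUnit (e.toBasis.det b) :=
    (e.toBasis.is_basis_iff_det).mp ⟨hb, hb.span_eq_top_of_card_eq_finrank' hdim.symm⟩
  rw [he, gramSchmidtOrthonormalBasis_det, ← he] at hdet
  have hd : ∀ i, e.repr (b i) i ≠ 0 := fun i => by
    rw [e.repr_apply_apply]
    exact Finset.prod_ne_zero_iff.mp hdet.ne_zero i (Finset.mem_univ i)
  let T : (Fin n → ℝ) →ₗ[ℝ] EuclideanSpace ℝ (Fin n) := Fintype.linearCombination ℝ e
  have hT : ∀ z, T z = ∑ i, z i • e i := fun z => Fintype.linearCombination_apply _ _ _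
  have hTc : Continuous T := T.continuous_of_finiteDimensional
  have hW0 : gpi n (T ⁻¹' V) = ENNReal.ofReal p := by
    rw [← hV, stdGaussian_eq_map_pi_orthonormalBasis e, ← funext hT,
      Measure.map_apply hTc.measurable hcl.measurableSet]
    rfl
  have hc0 : Convex ℝ (T ⁻¹' V) := hc.linear_preimage T
  obtain ⟨W, hWo, hWc, hWm, hWs, hWa⟩ := exists_sym (B := fun i j => e.repr (b i) j)
    (x := fun j => e.repr x j) (r := r)
    (fun i j hij => gramSchmidtOrthonormalBasis_inv_triangular' hdim b hij) hd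
    (fun i => by
      have := (PiLp.norm_apply_le (e.repr (b i)) i).trans_eq (e.repr.norm_map _)
      exact (Real.norm_eq_abs _ ▸ this).trans (hr i))
    (U := interior (T ⁻¹' V)) isOpen_interior hc0.interior
    (fun m hm => by
      apply hx m
      have h1 : T (fun j => e.repr x j + ∑ i, m i * e.repr (b i) j) ∈ V :=
        interior_subset (s := T ⁻¹' V) hm
      rw [hT] at h1
      rw [← e.sum_repr (x + ∑ i, (m i : ℝ) • b i)]
      convert h1 using 3
      simp)
  have hle : ENNReal.ofReal p ≤ gpi n (closure W) :=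
    hW0.ge.trans ((gpi_interior hc0).trans (hWm.trans (measure_mono subset_closure)))
  have hs : ∀ z ∈ closure W, -z ∈ closure W := fun z hz =>
    map_mem_closure continuous_neg hz hWs
  have ha : ∀ z ∈ closure W, ¬ ∀ j, r / 2 < |z j| := by
    have hO : IsOpen {z : Fin n → ℝ | ∀ j, r / 2 < |z j|} := by
      rw [ofPred_forall]
      exact isOpen_iInter_of_finite fun j => isOpen_lt continuous_const (by fun_prop)
    intro z hz h
    obtain ⟨w, hw1, hw2⟩ := mem_closure_iff.mp hz _ hO h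
    exact hWa w hw2 fun j => (hw1 j).le
  obtain ⟨W', hsub, hcl', hc', hs', hm'⟩ :=
    exists_exact isClosed_closure hWc.closure hs hp.le hle
  let S : EuclideanSpace ℝ (Fin n) ≃L[ℝ] (Fin n → ℝ) := EuclideanSpace.equiv (Fin n) ℝ
  have hcl'' : IsClosed (S ⁻¹' W') := hcl'.preimage S.continuous
  refine ⟨S ⁻¹' W', ⟨hcl'', hc'.linear_preimage S.toLinearEquiv.toLinearMap, ?_⟩, ?_, ?_, ?_⟩
  · have hne : (interior W').Nonempty := by
      by_contra h
      have h1 := gpi_interior hc'
      rw [not_nonempty_iff_eq_empty.mp h, measure_empty, hm'] at h1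
      exact (ENNReal.ofReal_pos.mpr hp).not_ge h1
    obtain ⟨w, hw⟩ := hne
    refine ⟨S.symm w, preimage_interior_subset_interior_preimage S.continuous ?_⟩
    simpa using hw
  · ext z
    simp only [mem_preimage, Set.mem_neg, map_neg]
    exact ⟨hs' _, fun h => by simpa using hs' _ h⟩
  · rw [← map_pi_eq_stdGaussian, Measure.map_apply (by fun_prop) hcl''.measurableSet, ← hm']
    rfl
  · intro z hz
    exact ha _ (hsub hz)

/-- The integer lattice. -/
noncomputable def intLat (n : ℕ) : AddSubgroup (EuclideanSpace ℝ (Fin n)) :=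
  (Submodule.span ℤ (range (EuclideanSpace.basisFun (Fin n) ℝ).toBasis)).toAddSubgroup

lemma intLat_isLattice : IsLattice (intLat n) := by
  refine ⟨?_, ?_⟩
  · unfold intLat; infer_instance
  · exact ZSpan.span_top _

lemma intLat_lastMin : lastMin (intLat n) ≤ 1 := by
  refine iInf₂_le_of_le 1 ⟨one_pos, (EuclideanSpace.basisFun (Fin n) ℝ).toBasis,
    (EuclideanSpace.basisFun (Fin n) ℝ).toBasis.linearIndependent, fun i =>
    ⟨Submodule.subset_span (mem_range_self i), ?_⟩⟩ (by simp)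
  simp

lemma intLat_coord {y : EuclideanSpace ℝ (Fin n)} (hy : y ∈ intLat n) (j : Fin n) :
    ∃ m : ℤ, y j = m := by
  have := ((EuclideanSpace.basisFun (Fin n) ℝ).toBasis.mem_span_iff_repr_mem ℤ y).mp hy j
  obtain ⟨m, hm⟩ := this
  exact ⟨m, by simpa using hm.symm⟩

lemma le_alpha {V : Set (EuclideanSpace ℝ (Fin n))} {c : ℝ} (hc : 0 < c)
    (h : ∀ z ∈ V, ¬ ∀ j, 1 / c / 2 < |z j|) : ENNReal.ofReal c ≤ alpha V := by
  refine le_iSup₂_of_le (intLat n) intLat_isLattice ?_
  have h1 : ENNReal.ofReal c ≤ covRadius (intLat n) V := by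
    refine le_iInf₂ fun c' hc' => ENNReal.ofReal_le_ofReal ?_
    by_contra hlt
    have hlt := not_le.mp hlt
    have hm : (WithLp.toLp 2 fun _ => (1 / 2 : ℝ) : EuclideanSpace ℝ (Fin n)) ∈
        (intLat n : Set (EuclideanSpace ℝ (Fin n))) + c' • V := by rw [hc'.2]; trivial
    obtain ⟨y, hy, _, ⟨z, hz, rfl⟩, hyz⟩ := hm
    refine h z hz fun j => ?_
    obtain ⟨m, hm⟩ := intLat_coord hy j
    have e : (m : ℝ) + c' * z j = 1 / 2 := by
      have := congrArg (fun w : EuclideanSpace ℝ (Fin n) => w j) hyz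
      simpa [hm] using this
    have h2 : 1 / 2 ≤ |c' * z j| := by
      rcases le_or_gt m 0 with h0 | h0
      · have : (m : ℝ) ≤ 0 := by exact_mod_cast h0
        exact le_abs.mpr (Or.inl (by linarith))
      · have : (1 : ℝ) ≤ m := by exact_mod_cast h0
        exact le_abs.mpr (Or.inr (by linarith))
    rw [abs_mul, abs_of_pos hc'.1] at h2
    have hz0 : 0 < |z j| := by
      by_contra h3
      have : |z j| = 0 := le_antisymm (not_lt.mp h3) (abs_nonneg _)
      rw [this] at h2; norm_num at h2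
    rw [div_div, div_lt_iff₀ (by positivity)]
    nlinarith
  calc ENNReal.ofReal c ≤ covRadius (intLat n) V / 1 := by rwa [div_one]
    _ ≤ _ := ENNReal.div_le_div_left intLat_lastMin _

theorem gAll_le_gSym [NeZero n] {p : ℝ} (hp : 0 < p) : gAll n p ≤ gSym n p := by
  refine iSup₂_le fun V hV => iSup₂_le fun L _ => ?_
  apply le_of_forall_lt_imp_le_of_dense
  intro c hc
  rcases eq_or_ne c 0 with rfl | hc0
  · exact zero_le
  have hct : c ≠ ∞ := hc.ne_top
  obtain ⟨c₀, hc₀, rfl⟩ : ∃ c₀ : ℝ, 0 < c₀ ∧ c = ENNReal.ofReal c₀ :=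
    ⟨c.toReal, ENNReal.toReal_pos hc0 hct, (ENNReal.ofReal_toReal hct).symm⟩
  have h1 : lastMin L < covRadius L V / ENNReal.ofReal c₀ := by
    rw [ENNReal.lt_div_iff_mul_lt (Or.inl hc0) (Or.inl hct), mul_comm]
    exact ENNReal.mul_lt_of_lt_div hc
  unfold lastMin at h1
  simp only [iInf_lt_iff] at h1
  obtain ⟨r, ⟨hr, b, hb, hbL⟩, h2⟩ := h1
  have h3 := ENNReal.mul_lt_of_lt_div h2
  rw [← ENNReal.ofReal_mul hr.le] at h3
  have hs : 0 < r * c₀ := mul_pos hr hc₀
  have h4 : (L : Set (EuclideanSpace ℝ (Fin n))) + (r * c₀) • V ≠ univ := fun h =>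
    h3.not_ge (iInf₂_le_of_le (r * c₀) ⟨hs, h⟩ le_rfl)
  obtain ⟨x, hx⟩ := (ne_univ_iff_exists_notMem _).mp h4
  have hb' : LinearIndependent ℝ fun i => (r * c₀)⁻¹ • b i :=
    hb.units_smul fun _ => Units.mk0 (r * c₀)⁻¹ (inv_ne_zero hs.ne')
  obtain ⟨V', h5, h6, h7, h8⟩ := core hV.1.1 hV.1.2.1 hp hV.2 hb' (r := 1 / c₀)
    (fun i => by
      rw [norm_smul, Real.norm_eq_abs, abs_of_pos (inv_pos.mpr hs), inv_mul_le_iff₀ hs]
      refine (hbL i).2.trans_eq ?_
      field_simp)
    ((r * c₀)⁻¹ • x)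
    (fun m hm => hx ⟨-∑ i, m i • b i, L.neg_mem (L.sum_mem fun i _ => L.zsmul_mem (hbL i).1 _),
      _, ⟨_, hm, rfl⟩, by
        have e : ∀ i, (r * c₀) • (m i : ℝ) • (r * c₀)⁻¹ • b i = m i • b i := fun i => by
          rw [smul_comm, smul_inv_smul₀ hs.ne', Int.cast_smul_eq_zsmul]
        simp only [smul_add, Finset.smul_sum, smul_inv_smul₀ hs.ne', e]
        abel⟩)
  exact (le_alpha hc₀ h8).trans (le_iSup₂_of_le V' ⟨h5, h6, h7⟩ le_rfl)

theorem gSym_le_gAll (p : ℝ) : gSym n p ≤ gAll n p :=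
  iSup₂_le fun V hV => le_iSup₂_of_le V ⟨hV.1, hV.2.2⟩ le_rfl

end Pool.Agent.MP_2cc29a_gt
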